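import Mathlib
import Pool.Agent.W773.RD.Uniq3

set_option autoImplicit false

open Filter Set Topology MeasureTheory InnerProductSpace
open scoped ComplexConjugate

/-!
# The extremal problem for positive harmonic functions vanishing on relatively dense sets

For `0 < δ < N` one has `C(N,δ) = (N/π) ln cot (πδ/(4N))`; in particular
`C(1,δ) = (1/π) ln cot (πδ/4)`. The supremum is attained for the periodic set
`⋃ [nN - δ/2, nN + δ/2]`, and only for its translates.
-/

namespace Pool.Agent.Results.MP_cebbdc_an.ExtremalProblem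

/-- `E` is a closed subset of the line which meets every interval of length `N` in a set of
measure at least `δ`. -/
structure RelDense (N δ : ℝ) (E : Set ℝ) : Prop where
  isClosed : IsClosed E
  dense : ∀ x : ℝ, ENNReal.ofReal δ ≤ volume (E ∩ Icc x (x + N))

/-- `U` is the function `U_E`: continuous on `ℂ`, harmonic and positive off `E`, zero on `E`,
symmetric, and normalised by `U(iy)/y → 1`. -/
structure IsUE (E : Set ℝ) (U : ℂ → ℝ) : Prop where
  continuous : Continuous U
  harmonic : HarmonicOnNhd U (Complex.ofReal '' E)ᶜ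
  pos : ∀ z ∈ (Complex.ofReal '' E)ᶜ, 0 < U z
  zero : ∀ t ∈ E, U t = 0
  symmetric : ∀ z, U (conj z) = U z
  normalised : Tendsto (fun y : ℝ => U (y * Complex.I) / y) atTop (𝓝 1)

/-- all values `U_E(x)`, `x ∈ ℝ`, `E` relatively dense with parameters `N, δ` -/
def values (N δ : ℝ) : Set ℝ :=
  {v | ∃ (E : Set ℝ) (U : ℂ → ℝ), RelDense N δ E ∧ IsUE E U ∧ ∃ x : ℝ, v = U x}

/-- the constant `C(N,δ)` -/
noncomputable def C (N δ : ℝ) : ℝ := sSup (values N δ)

/-- the periodic set `⋃ [nN - δ/2, nN + δ/2]` -/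
def periodicSet (N δ : ℝ) : Set ℝ := ⋃ n : ℤ, Icc ((n : ℝ) * N - δ / 2) (n * N + δ / 2)

open Pool.Agent.W773.RD

lemma relDense_iff {N δ : ℝ} {E : Set ℝ} : RelDense N δ E ↔ Dense N δ E :=
  ⟨fun h => ⟨h.1, h.2⟩, fun h => ⟨h.1, h.2⟩⟩

lemma isUE_iff {E : Set ℝ} {U : ℂ → ℝ} : IsUE E U ↔ IsU E U :=
  ⟨fun h => ⟨h.1, h.2, h.3, h.4, h.5, h.6⟩, fun h => ⟨h.1, h.2, h.3, h.4, h.5, h.6⟩⟩

lemma values_eq (N δ : ℝ) : values N δ = Vals N δ := by
  ext v
  simp only [values, Vals, relDense_iff, isUE_iff]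

lemma mem_periodicSet {N δ : ℝ} (hN : 0 < N) (t : ℝ) :
    t ∈ periodicSet N δ ↔ t / N ∈ Eper (δ / N) := by
  simp only [periodicSet, Eper, mem_iUnion, mem_Icc]
  refine exists_congr fun n => ?_
  have e1 : (n : ℝ) - δ / N / 2 = (n * N - δ / 2) / N := by field_simp
  have e2 : (n : ℝ) + δ / N / 2 = (n * N + δ / 2) / N := by field_simp
  rw [e1, e2, div_le_div_iff_of_pos_right hN, div_le_div_iff_of_pos_right hN]

/-- **The extremal problem.** Let `0 < δ < N`. The values of the functions `U_E` on the line, over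
all sets `E` that are relatively dense with parameters `N, δ`, have the maximum
`(N/π) ln cot (πδ/(4N))`, so this is `C(N,δ)`. It is attained for the periodic set
`⋃ [nN - δ/2, nN + δ/2]` at the point `N/2`, and whenever `U_E(x) = C(N,δ)` the set `E` is the
translate of the periodic set by `x - N/2`. -/
theorem result (N δ : ℝ) (hδ : 0 < δ) (hδN : δ < N) :
    IsGreatest (values N δ) (N / Real.pi * Real.log (Real.cot (Real.pi * δ / (4 * N)))) ∧
    C N δ = N / Real.pi * Real.log (Real.cot (Real.pi * δ / (4 * N))) ∧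
    RelDense N δ (periodicSet N δ) ∧
    (∃ U : ℂ → ℝ, IsUE (periodicSet N δ) U ∧ U ((N / 2 : ℝ) : ℂ) = C N δ) ∧
    ∀ (E : Set ℝ) (U : ℂ → ℝ) (x : ℝ), RelDense N δ E → IsUE E U → U x = C N δ →
      E = {t | t - (x - N / 2) ∈ periodicSet N δ} := by
  have hN : 0 < N := hδ.trans hδN
  have hd0 : 0 < δ / N := div_pos hδ hN
  have hd1 : δ / N < 1 := (div_lt_one hN).2 hδN
  have h1 : IsGreatest (values N δ) (N / Real.pi * Real.log (Real.cot (Real.pi * δ / (4 * N)))) := by
    rw [values_eq]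
    exact vals_scale hN hδ hδN
  have h2 : C N δ = N / Real.pi * Real.log (Real.cot (Real.pi * δ / (4 * N))) := h1.csSup_eq
  have hval : Ut (cd (δ / N)) 0 = C N δ / N := by
    rw [value hd0 hd1, h2]
    have e : Real.pi * (δ / N) / 4 = Real.pi * δ / (4 * N) := by field_simp
    rw [e]; field_simp
  have hset : {t | N⁻¹ * t ∈ Eper (δ / N)} = periodicSet N δ := by
    ext t
    rw [mem_periodicSet hN, mem_ofPred_eq, inv_mul_eq_div]
  refine ⟨h1, h2, ?_, ?_, ?_⟩
  · have h3 := (Eper_dense hd0 hd1).scale (inv_pos.2 hN)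
    rw [hset] at h3
    rw [relDense_iff]
    simpa [hN.ne'] using h3
  · have h3 := (Eper_isU hd0 hd1).scale (inv_pos.2 hN)
    rw [hset] at h3
    refine ⟨_, isUE_iff.2 h3, ?_⟩
    have e : ((N⁻¹ : ℝ) : ℂ) * ((N / 2 : ℝ) : ℂ) - ((1 / 2 : ℝ) : ℂ) = 0 := by
      have : (N : ℂ) ≠ 0 := by exact_mod_cast hN.ne'
      push_cast
      field_simp
      ring
    rw [e, hval]
    field_simp
  · intro E U x hE hU hx
    rw [relDense_iff] at hE
    rw [isUE_iff] at hU
    have h3 := hE.scale hN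
    rw [div_self hN.ne'] at h3
    have h4 := hU.scale hN
    obtain ⟨h5, -⟩ := uniq h4 h3 hd0 hd1 (x := x / N) (by
      push_cast
      rw [mul_div_cancel₀ _ (by exact_mod_cast hN.ne'), hx, hval])
    ext t
    have h6 : t / N ∈ {t | N * t ∈ E} ↔ t / N ∈ {t | t - (x / N - 1 / 2) ∈ Eper (δ / N)} := by
      rw [h5]
    rw [mem_ofPred_eq, mem_ofPred_eq, mul_div_cancel₀ _ hN.ne'] at h6
    rw [h6, mem_ofPred_eq, mem_periodicSet hN]
    have e : (t - (x - N / 2)) / N = t / N - (x / N - 1 / 2) := by field_simp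
    rw [e]

end Pool.Agent.Results.MP_cebbdc_an.ExtremalProblem
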